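import Mathlib

set_option autoImplicit false

namespace Pool.Agent.Results.MP_77df55_co.NoAcceptableMatching

/-- A bipartite graph between `A` and `B` (given by its relation `G a b`) is `k`-regular. -/
def Regular {A B : Type} (k : ℕ) (G : A → B → Prop) : Prop :=
  (∀ a, Nat.card {b // G a b} = k) ∧ (∀ b, Nat.card {a // G a b} = k)

/-- A perfect matching of `G` (a bijection along edges of `G`). -/
def IsPM {A B : Type} (G : A → B → Prop) (M : A ≃ B) : Prop := ∀ a, G a (M a)

/-- `M` is acceptable for `H`. -/
def Acceptable {A B : Type} (H : A → B → Prop) (M : A ≃ B) : Prop :=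
  ¬ ∃ a a' : A, ∃ b b' : B, a ≠ a' ∧ b ≠ b' ∧ M a = b ∧ M a' = b' ∧ H a b' ∧ H a' b

def Three {X : Type} (P : X → Prop) : Prop :=
  ∃ a b c : X, a ≠ b ∧ a ≠ c ∧ b ≠ c ∧ ∀ y, P y ↔ y = a ∨ y = b ∨ y = c

def Two {X : Type} (P : X → Prop) : Prop :=
  ∃ a b : X, a ≠ b ∧ ∀ y, P y ↔ y = a ∨ y = b

lemma Three.card {X : Type} {P : X → Prop} (h : Three P) : Nat.card {y // P y} = 3 := by
  classical
  obtain ⟨a, b, c, hab, hac, hbc, hP⟩ := h
  have h1 : {y | P y} = (({a, b, c} : Finset X) : Set X) := by
    ext y
    simp [hP]
  have h2 : Nat.card {y // P y} = ({y | P y} : Set X).ncard := rfl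
  rw [h2, h1, Set.ncard_coe_finset]
  exact Finset.card_eq_three.mpr ⟨a, b, c, hab, hac, hbc, rfl⟩

structure Gadget (S : Type) (R : S → S → Prop) (u : S) : Prop where
  out_u : Two (fun y => R u y)
  in_u : Two (fun y => R y u)
  out : ∀ x, x ≠ u → Three (fun y => R x y)
  inn : ∀ x, x ≠ u → Three (fun y => R y x)
  irrefl : ∀ x, ¬ R x x

/-! ### A gadget of every size `r + 1`, `r ≥ 4` -/

def Dg {r : ℕ} : Option (ZMod r) → Option (ZMod r) → Prop
  | none, none => False
  | none, some w => w = 1 ∨ w = 2
  | some v, none => v = 0 ∨ v = 1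
  | some v, some w => (w = v + 1 ∧ v ≠ 0 ∧ v ≠ 1) ∨ w = v + 2 ∨ w = v + 3

lemma small_ne {r : ℕ} (hr : 4 ≤ r) (k : ℕ) (h0 : 0 < k) (hk : k < 4) : (k : ZMod r) ≠ 0 := by
  rw [Ne, ZMod.natCast_eq_zero_iff]
  intro h
  have := Nat.le_of_dvd h0 h
  omega

lemma gadget {r : ℕ} (hr : 4 ≤ r) : Gadget (Option (ZMod r)) Dg none := by
  have h1 : (1 : ZMod r) ≠ 0 := by simpa using small_ne hr 1 (by norm_num) (by norm_num)
  have h2 : (2 : ZMod r) ≠ 0 := by simpa using small_ne hr 2 (by norm_num) (by norm_num)
  have h3 : (3 : ZMod r) ≠ 0 := by simpa using small_ne hr 3 (by norm_num) (by norm_num)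
  have h12 : (1 : ZMod r) ≠ 2 := fun h => h1 (by linear_combination -h)
  have h13 : (1 : ZMod r) ≠ 3 := fun h => h2 (by linear_combination -h)
  have h23 : (2 : ZMod r) ≠ 3 := fun h => h1 (by linear_combination -h)
  constructor
  · refine ⟨some 1, some 2, by simpa using h12, ?_⟩
    rintro (_ | w) <;> simp [Dg]
  · refine ⟨some 0, some 1, by simpa using h1.symm, ?_⟩
    rintro (_ | w) <;> simp [Dg]
  · rintro (_ | v) hv
    · exact absurd rfl hv
    · by_cases hv01 : v = 0 ∨ v = 1
      · refine ⟨none, some (v + 2), some (v + 3), by simp, by simp, by simpa using h23, ?_⟩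
        rintro (_ | w)
        · simpa [Dg] using hv01
        · simp only [Dg, reduceCtorEq, Option.some.injEq, false_or, or_iff_right_iff_imp]
          rintro ⟨_, a, b⟩
          tauto
      · push Not at hv01
        refine ⟨some (v + 1), some (v + 2), some (v + 3), by simpa using h12, by simpa using h13,
          by simpa using h23, ?_⟩
        rintro (_ | w)
        · simp [Dg, hv01.1, hv01.2]
        · simp [Dg, hv01.1, hv01.2]
  · rintro (_ | w) hw
    · exact absurd rfl hw
    · by_cases hw12 : w = 1 ∨ w = 2
      · refine ⟨none, some (w - 2), some (w - 3), by simp, by simp, ?_, ?_⟩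
        · simp only [ne_eq, Option.some.injEq]
          intro h
          exact h23 (by linear_combination -h)
        · rintro (_ | v)
          · simpa [Dg] using hw12
          · simp only [Dg, reduceCtorEq, Option.some.injEq, false_or]
            constructor
            · rintro (⟨a, b, c⟩ | a | a)
              · exfalso
                rcases hw12 with h | h
                · exact b (by linear_combination h - a)
                · exact c (by linear_combination h - a)
              · left; rw [a]; ring
              · right; rw [a]; ring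
            · rintro (a | a)
              · right; left; rw [a]; ring
              · right; right; rw [a]; ring
      · push Not at hw12
        refine ⟨some (w - 1), some (w - 2), some (w - 3), ?_, ?_, ?_, ?_⟩
        · simp only [ne_eq, Option.some.injEq]
          intro h
          exact h12 (by linear_combination -h)
        · simp only [ne_eq, Option.some.injEq]
          intro h
          exact h13 (by linear_combination -h)
        · simp only [ne_eq, Option.some.injEq]
          intro h
          exact h23 (by linear_combination -h)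
        · rintro (_ | v)
          · simp [Dg, hw12.1, hw12.2]
          · simp only [Dg, Option.some.injEq]
            constructor
            · rintro (⟨a, -, -⟩ | a | a)
              · left; rw [a]; ring
              · right; left; rw [a]; ring
              · right; right; rw [a]; ring
            · rintro (a | a | a)
              · left
                refine ⟨by rw [a]; ring, ?_, ?_⟩
                · intro h; exact hw12.1 (by linear_combination h - a)
                · intro h; exact hw12.2 (by linear_combination h - a)
              · right; left; rw [a]; ring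
              · right; right; rw [a]; ring
  · rintro (_ | v)
    · simp [Dg]
    · simp only [Dg]
      rintro (⟨a, _, _⟩ | a | a)
      · exact h1 (by linear_combination -a)
      · exact h2 (by linear_combination -a)
      · exact h3 (by linear_combination -a)

/-! ### Joining three gadgets to a new vertex -/

inductive D {S : Fin 3 → Type} (R : ∀ i, S i → S i → Prop) (u : ∀ i, S i) :
    Option (Σ i, S i) → Option (Σ i, S i) → Prop
  | cu (i : Fin 3) : D R u none (some ⟨i, u i⟩)
  | uc (i : Fin 3) : D R u (some ⟨i, u i⟩) none
  | gg (i : Fin 3) (s t : S i) (h : R i s t) : D R u (some ⟨i, s⟩) (some ⟨i, t⟩)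

variable {S : Fin 3 → Type} {R : ∀ i, S i → S i → Prop} {u : ∀ i, S i}

lemma some_ne {i : Fin 3} {s t : S i} (h : s ≠ t) :
    (some ⟨i, s⟩ : Option (Σ i, S i)) ≠ some ⟨i, t⟩ := by
  intro h'
  simp only [Option.some.injEq, Sigma.mk.injEq, heq_eq_eq, true_and] at h'
  exact h h'

lemma D_out (hG : ∀ i, Gadget (S i) (R i) (u i)) (x : Option (Σ i, S i)) :
    Three (fun y => D R u x y) := by
  rcases x with _ | ⟨i, s⟩
  · refine ⟨some ⟨0, u 0⟩, some ⟨1, u 1⟩, some ⟨2, u 2⟩, ?_, ?_, ?_, ?_⟩
    · intro h; simp at h
    · intro h; simp at h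
    · intro h; simp at h
    · intro y
      constructor
      · rintro (⟨i⟩)
        fin_cases i
        · left; rfl
        · right; left; rfl
        · right; right; rfl
      · rintro (rfl | rfl | rfl)
        · exact D.cu 0
        · exact D.cu 1
        · exact D.cu 2
  · by_cases hs : s = u i
    · subst hs
      obtain ⟨a, b, hab, hP⟩ := (hG i).out_u
      refine ⟨none, some ⟨i, a⟩, some ⟨i, b⟩, by simp, by simp, some_ne hab, ?_⟩
      intro y
      constructor
      · intro h
        generalize hx : (some ⟨i, u i⟩ : Option (Σ i, S i)) = x at h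
        cases h with
        | cu j => exact absurd hx (by simp)
        | uc j => left; rfl
        | gg j s t h =>
          simp only [Option.some.injEq, Sigma.mk.injEq] at hx
          obtain ⟨rfl, hx⟩ := hx
          rw [heq_eq_eq] at hx
          subst hx
          rcases (hP t).mp h with rfl | rfl
          · right; left; rfl
          · right; right; rfl
      · rintro (rfl | rfl | rfl)
        · exact D.uc i
        · exact D.gg i _ _ ((hP a).mpr (Or.inl rfl))
        · exact D.gg i _ _ ((hP b).mpr (Or.inr rfl))
    · obtain ⟨a, b, c, hab, hac, hbc, hP⟩ := (hG i).out s hs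
      refine ⟨some ⟨i, a⟩, some ⟨i, b⟩, some ⟨i, c⟩, some_ne hab, some_ne hac, some_ne hbc, ?_⟩
      intro y
      constructor
      · intro h
        generalize hx : (some ⟨i, s⟩ : Option (Σ i, S i)) = x at h
        cases h with
        | cu j => exact absurd hx (by simp)
        | uc j =>
          simp only [Option.some.injEq, Sigma.mk.injEq] at hx
          obtain ⟨rfl, hx⟩ := hx
          rw [heq_eq_eq] at hx
          exact absurd hx hs
        | gg j s' t h =>
          simp only [Option.some.injEq, Sigma.mk.injEq] at hx
          obtain ⟨rfl, hx⟩ := hx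
          rw [heq_eq_eq] at hx
          subst hx
          rcases (hP t).mp h with rfl | rfl | rfl
          · left; rfl
          · right; left; rfl
          · right; right; rfl
      · rintro (rfl | rfl | rfl)
        · exact D.gg i _ _ ((hP a).mpr (Or.inl rfl))
        · exact D.gg i _ _ ((hP b).mpr (Or.inr (Or.inl rfl)))
        · exact D.gg i _ _ ((hP c).mpr (Or.inr (Or.inr rfl)))

lemma D_in (hG : ∀ i, Gadget (S i) (R i) (u i)) (x : Option (Σ i, S i)) :
    Three (fun y => D R u y x) := by
  rcases x with _ | ⟨i, s⟩
  · refine ⟨some ⟨0, u 0⟩, some ⟨1, u 1⟩, some ⟨2, u 2⟩, ?_, ?_, ?_, ?_⟩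
    · intro h; simp at h
    · intro h; simp at h
    · intro h; simp at h
    · intro y
      constructor
      · intro h
        cases h with
        | uc i =>
          fin_cases i
          · left; rfl
          · right; left; rfl
          · right; right; rfl
      · rintro (rfl | rfl | rfl)
        · exact D.uc 0
        · exact D.uc 1
        · exact D.uc 2
  · by_cases hs : s = u i
    · subst hs
      obtain ⟨a, b, hab, hP⟩ := (hG i).in_u
      refine ⟨none, some ⟨i, a⟩, some ⟨i, b⟩, by simp, by simp, some_ne hab, ?_⟩
      intro y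
      constructor
      · intro h
        generalize hx : (some ⟨i, u i⟩ : Option (Σ i, S i)) = x at h
        cases h with
        | cu j => left; rfl
        | uc j => exact absurd hx (by simp)
        | gg j s t h =>
          simp only [Option.some.injEq, Sigma.mk.injEq] at hx
          obtain ⟨rfl, hx⟩ := hx
          rw [heq_eq_eq] at hx
          subst hx
          rcases (hP s).mp h with rfl | rfl
          · right; left; rfl
          · right; right; rfl
      · rintro (rfl | rfl | rfl)
        · exact D.cu i
        · exact D.gg i _ _ ((hP a).mpr (Or.inl rfl))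
        · exact D.gg i _ _ ((hP b).mpr (Or.inr rfl))
    · obtain ⟨a, b, c, hab, hac, hbc, hP⟩ := (hG i).inn s hs
      refine ⟨some ⟨i, a⟩, some ⟨i, b⟩, some ⟨i, c⟩, some_ne hab, some_ne hac, some_ne hbc, ?_⟩
      intro y
      constructor
      · intro h
        generalize hx : (some ⟨i, s⟩ : Option (Σ i, S i)) = x at h
        cases h with
        | cu j =>
          simp only [Option.some.injEq, Sigma.mk.injEq] at hx
          obtain ⟨rfl, hx⟩ := hx
          rw [heq_eq_eq] at hx
          exact absurd hx hs
        | uc j => exact absurd hx (by simp)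
        | gg j s' t h =>
          simp only [Option.some.injEq, Sigma.mk.injEq] at hx
          obtain ⟨rfl, hx⟩ := hx
          rw [heq_eq_eq] at hx
          subst hx
          rcases (hP s').mp h with rfl | rfl | rfl
          · left; rfl
          · right; left; rfl
          · right; right; rfl
      · rintro (rfl | rfl | rfl)
        · exact D.gg i _ _ ((hP a).mpr (Or.inl rfl))
        · exact D.gg i _ _ ((hP b).mpr (Or.inr (Or.inl rfl)))
        · exact D.gg i _ _ ((hP c).mpr (Or.inr (Or.inr rfl)))

lemma D_irrefl (hG : ∀ i, Gadget (S i) (R i) (u i)) (x : Option (Σ i, S i)) : ¬ D R u x x := by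
  have : ∀ x y, D R u x y → x ≠ y := by
    intro x y h
    cases h with
    | cu j => simp
    | uc j => simp
    | gg j s t h =>
      apply some_ne
      rintro rfl
      exact (hG j).irrefl s h
  exact fun h => this _ _ h rfl

/-- every permutation along arcs of `D` has a 2-cycle -/
lemma D_two_cycle [∀ i, Finite (S i)] (σ : Option (Σ i, S i) ≃ Option (Σ i, S i))
    (hσ : ∀ x, D R u x (σ x)) : ∃ x y, x ≠ y ∧ σ x = y ∧ σ y = x := by
  have h0 : ∃ i, σ none = some ⟨i, u i⟩ := by
    have h := hσ none
    generalize hx : (none : Option (Σ i, S i)) = x at h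
    generalize hy : σ x = y at h
    cases h with
    | cu i => exact ⟨i, rfl⟩
    | uc i => exact absurd hx (by simp)
    | gg i s t h => exact absurd hx (by simp)
  obtain ⟨i, hi⟩ := h0
  refine ⟨none, some ⟨i, u i⟩, by simp, hi, ?_⟩
  by_contra hcon
  have hstep : ∀ s : S i, ∃ t : S i, σ (some ⟨i, s⟩) = some ⟨i, t⟩ := by
    intro s
    have h := hσ (some ⟨i, s⟩)
    generalize hx : (some ⟨i, s⟩ : Option (Σ i, S i)) = x at h
    generalize hy : σ x = y at h
    cases h with
    | cu j => exact absurd hx (by simp)
    | uc j =>
      exfalso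
      simp only [Option.some.injEq, Sigma.mk.injEq] at hx
      obtain ⟨rfl, _⟩ := hx
      exact hcon hy
    | gg j s' t h =>
      simp only [Option.some.injEq, Sigma.mk.injEq] at hx
      obtain ⟨rfl, _⟩ := hx
      exact ⟨t, rfl⟩
  choose g hg using hstep
  have hinj : Function.Injective g := by
    intro s t hst
    have h1 : σ (some ⟨i, s⟩) = σ (some ⟨i, t⟩) := by rw [hg, hg, hst]
    have h2 := σ.injective h1
    simpa using h2
  obtain ⟨s, hs⟩ := (Finite.injective_iff_surjective.mp hinj) (u i)
  have h1 : σ (some ⟨i, s⟩) = σ none := by rw [hg, hs, hi]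
  exact absurd (σ.injective h1) (by simp)

/-- For every `n ≥ 16` there are a 3-regular `G` and a 1-regular `H`, edge-disjoint, such that no
perfect matching of `G` is acceptable for `H`. -/
theorem result :
    (∀ n : ℕ, 16 ≤ n → ∃ G H : Fin n → Fin n → Prop, Regular 3 G ∧ Regular 1 H ∧
      (∀ a b, ¬ (G a b ∧ H a b)) ∧ ∀ M : Fin n ≃ Fin n, IsPM G M → ¬ Acceptable H M) ∧
    ¬ (∃ n0 : ℕ, ∀ n : ℕ, n0 ≤ n → ∀ G H : Fin n → Fin n → Prop, Regular 3 G → Regular 1 H →
      (∀ a b, ¬ (G a b ∧ H a b)) → ∃ M : Fin n ≃ Fin n, IsPM G M ∧ Acceptable H M) := by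
  have key : ∀ n : ℕ, 16 ≤ n → ∃ G H : Fin n → Fin n → Prop, Regular 3 G ∧ Regular 1 H ∧
      (∀ a b, ¬ (G a b ∧ H a b)) ∧ ∀ M : Fin n ≃ Fin n, IsPM G M → ¬ Acceptable H M := by
    intro n hn
    let r : Fin 3 → ℕ := ![4, 4, n - 12]
    have hr : ∀ i, 4 ≤ r i := by
      intro i
      fin_cases i
      · exact le_rfl
      · exact le_rfl
      · change 4 ≤ n - 12; omega
    have hne : ∀ i, NeZero (r i) := fun i => ⟨by have := hr i; omega⟩
    let S : Fin 3 → Type := fun i => Option (ZMod (r i))
    let R : ∀ i, S i → S i → Prop := fun i => Dg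
    let u : ∀ i, S i := fun i => none
    have hG : ∀ i, Gadget (S i) (R i) (u i) := fun i => gadget (hr i)
    have hfin : ∀ i, Fintype (S i) := fun i => inferInstanceAs (Fintype (Option (ZMod (r i))))
    have hcard : Nat.card (Option (Σ i, S i)) = n := by
      rw [Finite.card_option, Nat.card_sigma, Fin.sum_univ_three]
      have : ∀ i, Nat.card (S i) = r i + 1 := by
        intro i
        change Nat.card (Option (ZMod (r i))) = _
        rw [Finite.card_option, Nat.card_zmod]
      rw [this, this, this]
      change 4 + 1 + (4 + 1) + (n - 12 + 1) + 1 = n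
      omega
    have hfX : Finite (Option (Σ i, S i)) := inferInstance
    let e : Option (Σ i, S i) ≃ Fin n := (Finite.equivFinOfCardEq hcard)
    refine ⟨fun a b => D R u (e.symm a) (e.symm b), fun a b => a = b, ?_, ?_, ?_, ?_⟩
    · have hthree : ∀ P : Option (Σ i, S i) → Prop, Three P → Nat.card {b // P (e.symm b)} = 3 := by
        intro P hP
        exact (Nat.card_congr (Equiv.subtypeEquiv e.symm (fun b => Iff.rfl))).trans hP.card
      exact ⟨fun a => hthree _ (D_out hG _), fun b => hthree _ (D_in hG _)⟩
    · constructor
      · intro a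
        simp
      · intro b
        simp
    · rintro a b ⟨h1, rfl⟩
      exact D_irrefl hG _ h1
    · intro M hM hacc
      obtain ⟨x, y, hxy, h1, h2⟩ := D_two_cycle (R := R) (u := u) ((e.trans M).trans e.symm) (by
        intro x
        have := hM (e x)
        simpa using this)
      apply hacc
      simp only [Equiv.trans_apply] at h1 h2
      have h1' : M (e x) = e y := by rw [← h1]; simp
      have h2' : M (e y) = e x := by rw [← h2]; simp
      exact ⟨e x, e y, e y, e x, fun h => hxy (e.injective h), fun h => hxy (e.injective h.symm),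
        h1', h2', rfl, rfl⟩
  refine ⟨key, ?_⟩
  rintro ⟨n0, h⟩
  obtain ⟨G, H, h1, h2, h3, h4⟩ := key (n0 + 16) (by omega)
  obtain ⟨M, h5, h6⟩ := h (n0 + 16) (by omega) G H h1 h2 h3
  exact h4 M h5 h6

end Pool.Agent.Results.MP_77df55_co.NoAcceptableMatching
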